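import Pool.Agent.Run7.h184.AJ.Defs

/-!
# Hodge structures and the coniveau filtration on a category of varieties: definitions

In the intended use the objects of `C` are the smooth projective complex varieties and the morphisms
from `Y` to `Z` are the elements of `CH^*(Y × Z) ⊗ ℚ` (all codimensions).
-/

set_option autoImplicit false

open CategoryTheory Limits MonoidalCategory Module TensorProduct
open Pool.Agent.Y112.SR Pool.Agent.Y112.KD Pool.Agent.N64.AF

namespace Pool.Agent.Run7.h184.HDG

universe v u x

/-- The rational cohomology with its Hodge decomposition. In the intended use `H Y` is the sum of the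
groups `H^j(Y, ℚ)` over all `j`, `deg Y j` is its subspace `H^j(Y, ℚ)`, and `hodge Y d` is the sum of the
subspaces `H^(p, q)(Y)` of `H(Y) ⊗ ℂ` with `p - q = d`. A correspondence of any codimension maps
`H^(p, q)(Y)` to `H^(p + e, q + e)(Z)` for some `e`, hence `hodge Y d` to `hodge Z d`. -/
structure HodgeFunctor (C : Type u) [Category.{v} C] [Preadditive C] where
  /-- the rational cohomology -/
  H : C ⥤ ModuleCat.{x} ℚ
  [additive : H.Additive]
  /-- the part of degree `j` -/
  deg : ∀ Y : C, ℕ → Submodule ℚ (H.obj Y)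
  /-- the sum of the `H^(p, q)` with `p - q = d` -/
  hodge : ∀ Y : C, ℤ → Submodule ℂ (ℂ ⊗[ℚ] (H.obj Y))
  map_hodge : ∀ {Y Z : C} (f : Y ⟶ Z) (d : ℤ),
    (hodge Y d).map (((H.map f).hom : H.obj Y →ₗ[ℚ] H.obj Z).baseChange ℂ) ≤ hodge Z d
  deg_hodge : ∀ (Y : C) (j : ℕ), (deg Y j).baseChange ℂ ≤
    ⨆ d : {d : ℤ // |d| ≤ j}, (deg Y j).baseChange ℂ ⊓ hodge Y d

attribute [instance] HodgeFunctor.additive

namespace HodgeFunctor

variable {C : Type u} [Category.{v} C] [Preadditive C] (A : HodgeFunctor.{v, u, x} C)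

/-- `V` is a sub-Hodge structure of `H(Y)` of level at most `w`: its complexification is the sum of its
intersections with the spaces `hodge Y d` with `|d| ≤ w`. -/
def IsSub (w : ℕ) (Y : C) (V : Submodule ℚ (A.H.obj Y)) : Prop :=
  V.baseChange ℂ ≤ ⨆ d : {d : ℤ // |d| ≤ w}, V.baseChange ℂ ⊓ A.hodge Y d

/-- The sum of all sub-Hodge structures of `H(Y)` of level at most `w`. -/
def lev (w : ℕ) (Y : C) : Submodule ℚ (A.H.obj Y) :=
  sSup {V | A.IsSub w Y V}

/-- The part of `H(Y)` of the coniveau filtration: the sum of the images of the groups `H^j(Z)`, `j ≤ w`,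
under all morphisms `Z ⟶ Y`. -/
def con (w : ℕ) (Y : C) : Submodule ℚ (A.H.obj Y) :=
  ⨆ (Z : C) (f : Z ⟶ Y) (j : Fin (w + 1)), (A.deg Z j).map (A.H.map f).hom

/-- The generalized Hodge conjecture for `Y` in the levels `≤ w`: each sub-Hodge structure of `H(Y)` of
level at most `w` is contained in the coniveau part. -/
def GHC (w : ℕ) (Y : C) : Prop := ∀ V, A.IsSub w Y V → V ≤ A.con w Y

/-- The defect of the generalized Hodge conjecture: the dimension of the quotient of the largest
sub-Hodge structure of level at most `w` of `H(Y)` by the coniveau part. -/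
noncomputable def defect (w : ℕ) (Y : C) : ℕ∞ :=
  dimE ℚ (A.lev w Y ⧸ (A.con w Y).comap (A.lev w Y).subtype)

end HodgeFunctor

end Pool.Agent.Run7.h184.HDG
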