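import Pool.Agent.Run7.h184.HDG.Defs
import Pool.Agent.Run7.h184.AJ.Main

/-!
# The law for the defect of the generalized Hodge conjecture on all powers
-/

set_option autoImplicit false
set_option linter.unusedSectionVars false

open CategoryTheory Limits MonoidalCategory Module Filter Topology TensorProduct
open Pool.Agent.Y112.SR Pool.Agent.Y112.KD Pool.Agent.N64.AF
open Pool.Agent.Run7.h184.AJ
open scoped ENNReal

namespace Pool.Agent.Run7.h184.HDG

universe v u w t x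

namespace HodgeFunctor

section Basic

variable {C : Type u} [Category.{v} C] [Preadditive C] (A : HodgeFunctor.{v, u, x} C)

lemma map_baseChange {V W : Type x} [AddCommGroup V] [Module ℚ V] [AddCommGroup W] [Module ℚ W]
    (f : V →ₗ[ℚ] W) (S : Submodule ℚ V) :
    (S.map f).baseChange ℂ = (S.baseChange ℂ).map (f.baseChange ℂ) := by
  rw [Submodule.baseChange_eq_span, Submodule.baseChange_eq_span, Submodule.map_span]
  congr 1
  ext y
  constructor
  · rintro ⟨_, ⟨a, ha, rfl⟩, rfl⟩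
    exact ⟨_, ⟨a, ha, rfl⟩, by simp⟩
  · rintro ⟨_, ⟨a, ha, rfl⟩, rfl⟩
    exact ⟨_, ⟨a, ha, rfl⟩, by simp⟩

/-- Lifting generators of a quotient. -/
lemma span_lift {V : Type x} [AddCommGroup V] [Module ℚ V] {L D : Submodule ℚ V}
    {S : Set (L ⧸ D.comap L.subtype)} {S' : Set V}
    (hS : ∀ s ∈ S, ∃ s' ∈ S', ∃ h : s' ∈ L,
      (Submodule.Quotient.mk ⟨s', h⟩ : L ⧸ D.comap L.subtype) = s) (a : L)
    (ha : (Submodule.Quotient.mk a : L ⧸ D.comap L.subtype) ∈ Submodule.span ℚ S) :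
    a.1 ∈ D ⊔ Submodule.span ℚ S' := by
  have key : Submodule.span ℚ S ≤
      (((D ⊔ Submodule.span ℚ S').comap L.subtype).map (D.comap L.subtype).mkQ) := by
    refine Submodule.span_le.2 fun s hs => ?_
    obtain ⟨s', h1, h2, rfl⟩ := hS s hs
    exact ⟨⟨s', h2⟩, Submodule.mem_sup_right (Submodule.subset_span h1), rfl⟩
  obtain ⟨b, hb, hab⟩ := key ha
  have h1 : b - a ∈ D.comap L.subtype := (Submodule.Quotient.eq _).1 hab
  have h2 : b.1 - a.1 ∈ D := h1
  have h3 : a.1 = b.1 - (b.1 - a.1) := by abel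
  rw [h3]
  exact Submodule.sub_mem _ hb (Submodule.mem_sup_left h2)

lemma isSub_map {w : ℕ} {Y Z : C} (f : Y ⟶ Z) {V : Submodule ℚ (A.H.obj Y)} (hV : A.IsSub w Y V) :
    A.IsSub w Z (V.map (A.H.map f).hom) := by
  unfold IsSub at *
  rw [map_baseChange]
  refine (Submodule.map_mono hV).trans ?_
  rw [Submodule.map_iSup]
  refine iSup_mono fun d => ?_
  refine le_inf (Submodule.map_mono inf_le_left) ?_
  exact (Submodule.map_mono inf_le_right).trans (A.map_hodge f d)

lemma lev_stab (w : ℕ) : IsStab A.H (A.lev w) := by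
  intro Y Z f
  rw [← Submodule.map_le_iff_le_comap]
  unfold lev
  rw [sSup_eq_iSup', Submodule.map_iSup]
  refine iSup_le fun V => ?_
  exact le_sSup (A.isSub_map f V.2)

lemma con_stab (w : ℕ) : IsStab A.H (A.con w) := by
  intro Y Z f
  rw [← Submodule.map_le_iff_le_comap]
  unfold con
  simp only [Submodule.map_iSup]
  refine iSup_le fun X => iSup_le fun g => iSup_le fun j => ?_
  have h : ((A.deg X j).map (A.H.map g).hom).map (A.H.map f).hom =
      (A.deg X j).map (A.H.map (g ≫ f)).hom := by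
    rw [← Submodule.map_comp, A.H.map_comp]
    rfl
  rw [h]
  exact le_iSup_of_le X (le_iSup_of_le (g ≫ f) (le_iSup_of_le j le_rfl))

lemma isSub_deg {w : ℕ} (Y : C) (j : Fin (w + 1)) : A.IsSub w Y (A.deg Y j) := by
  refine (A.deg_hodge Y j).trans ?_
  refine iSup_le fun d => ?_
  have hd : |(d : ℤ)| ≤ w := d.2.trans (by exact_mod_cast Nat.lt_succ_iff.1 j.2)
  exact le_iSup (fun d : {d : ℤ // |d| ≤ w} => (A.deg Y j).baseChange ℂ ⊓ A.hodge Y d) ⟨d, hd⟩

/-- The coniveau part has level at most `w`. -/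
lemma con_le_lev (w : ℕ) (Y : C) : A.con w Y ≤ A.lev w Y :=
  iSup_le fun Z => iSup_le fun f => iSup_le fun j =>
    le_sSup (A.isSub_map f (A.isSub_deg Z j))

lemma ghc_iff (w : ℕ) (Y : C) : A.GHC w Y ↔ A.lev w Y ≤ A.con w Y := by
  unfold GHC lev
  rw [sSup_le_iff]
  rfl

/-- The functor of the largest sub-Hodge structures of level at most `w`. -/
def G (w : ℕ) : C ⥤ ModuleCat.{x} ℚ := sub A.H (A.lev w) (A.lev_stab w)

instance (w : ℕ) : (A.G w).Additive := by unfold G; infer_instance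

lemma q_stab (w : ℕ) : IsStab (A.G w) (fun Y => (A.con w Y).comap (A.lev w Y).subtype) := by
  intro Y Z f a ha
  exact A.con_stab w f ha

/-- The functor of the defects. -/
def Q (w : ℕ) : C ⥤ ModuleCat.{x} ℚ := quoS (A.G w) _ (A.q_stab w)

instance (w : ℕ) : (A.Q w).Additive := by unfold Q; infer_instance

lemma dimE_Q (w : ℕ) (Y : C) : dimE ℚ ((A.Q w).obj Y) = A.defect w Y := rfl

lemma sub_Q (w : ℕ) (Y : C) : Subsingleton ((A.Q w).obj Y) ↔ A.GHC w Y := by
  rw [ghc_iff]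
  exact Iff.trans (Submodule.Quotient.subsingleton_iff)
    (Submodule.comap_subtype_eq_top (p := A.lev w Y) (p' := A.con w Y))

end Basic

variable {C : Type u} [Category.{v} C] [Preadditive C] [MonoidalCategory C]
  [MonoidalPreadditive C] [SymmetricCategory C] [RightRigidCategory C]
  [Linear ℚ C] [MonoidalLinear ℚ C]
  {K : Type w} [Field K] [IsAlgClosed K] [Algebra ℚ K] {R : SuperRealisation C K}
  (A : HodgeFunctor.{v, u, x} C)

/-- **The law.** -/
theorem main {T : C} [ExactPairing T T] (h : IsPow ℚ R T) (w : ℕ) :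
    (∃ N : ℕ∞, RatioTo ℚ T (fun n => A.defect w (tp T n)) N ∧ (N = 0 ↔ ∀ n, A.GHC w (tp T n)) ∧
      (N ≠ ⊤ → (∀ n, A.defect w (tp T (2 * n)) ≤ N * numRank ℚ (tp T (2 * n))) ∧
        ∃ (m l : ℕ) (z : Fin l → A.H.obj (tp T m)), (l : ℕ∞) ≤ N ∧ (∀ i, z i ∈ A.lev w (tp T m)) ∧
          ∀ n, A.lev w (tp T n) = A.con w (tp T n) ⊔ Submodule.span ℚ {y : A.H.obj (tp T n) |
            ∃ (i : Fin l) (c : tp T m ⟶ tp T n), (A.H.map c).hom (z i) = y}) ∧
      ∀ k : ℕ, N = k → ∀ (a b : ℕ) (f : tp T a ⟶ tp T b), NumPow T k f →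
        (A.lev w (tp T a)).map (A.H.map f).hom ≤ A.con w (tp T b)) ∧
    ∀ m n : ℕ, 128 * (m + 1) ^ 2 * bt R T ^ (2 * m + 6) ≤ 2 * n → ¬ A.GHC w (tp T m) →
      Large ℚ R T n (A.defect w (tp T (2 * n))) := by
  obtain ⟨N, a1, a2, a3⟩ := law h (A.Q w)
  refine ⟨⟨N, a1, a2.trans (forall_congr' fun n => A.sub_Q w _), fun hN => ?_, ?_⟩,
    fun m n hn hm => ?_⟩
  · obtain ⟨b1, m, l, z, hl, hz⟩ := a3 hN
    refine ⟨fun n => ?_, ?_⟩
    · obtain ⟨c1, -, -⟩ := b1 (2 * n)
      obtain ⟨-, c2, -⟩ := b1 n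
      rw [← dimE_Q]
      have : dimE ℚ ((A.Q w).obj (tp T (2 * n))) = (finrank ℚ ((A.Q w).obj (tp T (2 * n))) : ℕ∞) := by
        have := c1
        rw [dimE_eq]
      rw [this]
      exact c2
    · choose z' hz' using fun i => Submodule.mkQ_surjective
        ((A.con w (tp T m)).comap (A.lev w (tp T m)).subtype) (z i)
      refine ⟨m, l, fun i => (z' i).1, hl, fun i => (z' i).2, fun n => ?_⟩
      apply le_antisymm
      · intro y hy
        refine span_lift (S := {y : (A.Q w).obj (tp T n) |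
          ∃ (i : Fin l) (c : tp T m ⟶ tp T n), ((A.Q w).map c).hom (z i) = y}) ?_
          (⟨y, hy⟩ : A.lev w (tp T n)) (hz n _)
        rintro _ ⟨i, c, rfl⟩
        refine ⟨(A.H.map c).hom (z' i).1, ⟨i, c, rfl⟩, A.lev_stab w c (z' i).2, ?_⟩
        rw [← hz' i]
        rfl
      · refine sup_le (A.con_le_lev w _) (Submodule.span_le.2 ?_)
        rintro _ ⟨i, c, rfl⟩
        exact A.lev_stab w c (z' i).2
  · rintro k rfl a b f hf
    obtain ⟨-, hst⟩ := structure_thm h (A.Q w) a1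
    have h1 := hst a b f hf
    rintro _ ⟨y, hy, rfl⟩
    have h2 := congrArg (fun q : (A.Q w).obj (tp T a) ⟶ (A.Q w).obj (tp T b) =>
      q.hom (show (A.Q w).obj (tp T a) from (Submodule.Quotient.mk (⟨y, hy⟩ : A.lev w (tp T a)) :
        A.lev w (tp T a) ⧸ (A.con w (tp T a)).comap (A.lev w (tp T a)).subtype))) h1
    have h3 : (Submodule.Quotient.mk ((⟨(A.H.map f).hom y, A.lev_stab w f hy⟩ :
        A.lev w (tp T b))) :
        A.lev w (tp T b) ⧸ (A.con w (tp T b)).comap (A.lev w (tp T b)).subtype) = 0 := h2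
    exact (Submodule.Quotient.mk_eq_zero
      ((A.con w (tp T b)).comap (A.lev w (tp T b)).subtype)).1 h3
  · exact gap h (A.Q w) hn fun hs => hm ((A.sub_Q w _).1 hs)

end HodgeFunctor

end Pool.Agent.Run7.h184.HDG
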